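import Mathlib
import Pool.Agent.U426.TU.Stm

/-!
# Project TU (helper426), package MAIN: the assembly of the frozen statement S18713
-/

set_option autoImplicit false

namespace Pool.Agent.U723.TU.MAIN

open Pool.Agent.U426.TU NumberField

theorem t_MAIN : S_NF → S_INT → S_SQ → S_FIN → S_MAIN := by
  intro hNF hI hSQ hF
  obtain ⟨hnf, hdeg, hgal, hexp, hconj, hre, hre2⟩ := hNF
  haveI := hnf
  have htr : NumberField.IsTotallyReal K := by
    refine ⟨fun v => ?_⟩
    rw [NumberField.InfinitePlace.isReal_iff]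
    rw [NumberField.ComplexEmbedding.isReal_iff]
    ext x
    exact hconj _ x
  have hr2 : IsIntegral ℤ r2 := by
    refine IsIntegral.of_pow (n := 2) (by norm_num) ?_
    rw [r2_sq]
    exact isIntegral_algebraMap (R := ℤ) (A := K) (x := 2) |> fun h => by simpa using h
  refine ⟨K, inferInstance, hnf, hdeg, hgal, hexp, htr, ?_⟩
  set R2 : 𝓞 K := ⟨r2, hr2⟩ with hR2
  have hR2c : ((R2 : 𝓞 K) : K) = r2 := rfl
  refine ⟨![![1, -R2, -R2], ![0, 1, 1], ![0, 0, 1]], ?_, ?_⟩
  · intro φ x hx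
    have hs : (φ r2) ^ 2 = 2 := by rw [← map_pow, r2_sq, map_ofNat]
    have hsum : (∑ i : Fin 3, ∑ j : Fin 3, (if i ≤ j then
        φ (((![![1, -R2, -R2], ![0, 1, 1], ![0, 0, 1]] : Fin 3 → Fin 3 → 𝓞 K) i j : 𝓞 K) : K) *
          x i * x j else 0)) =
        ((φ r2 * x 0 - x 1 - x 2) ^ 2 + x 1 ^ 2 + x 2 ^ 2) / 2 := by
      simp [Fin.sum_univ_three, hR2c]
      linear_combination (-(x 0) ^ 2 / 2) * hs
    rw [hsum]
    have hs0 : φ r2 ≠ 0 := by
      intro h
      rw [h] at hs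
      norm_num at hs
    by_contra hneg
    push Not at hneg
    have h1 : (x 1) ^ 2 ≤ 0 := by nlinarith [sq_nonneg (φ r2 * x 0 - x 1 - x 2), sq_nonneg (x 2)]
    have h2 : (x 2) ^ 2 ≤ 0 := by nlinarith [sq_nonneg (φ r2 * x 0 - x 1 - x 2), sq_nonneg (x 1)]
    have h1' : x 1 = 0 := by
      have := le_antisymm h1 (sq_nonneg (x 1))
      exact pow_eq_zero_iff (n := 2) (by norm_num) |>.1 this
    have h2' : x 2 = 0 := by
      have := le_antisymm h2 (sq_nonneg (x 2))
      exact pow_eq_zero_iff (n := 2) (by norm_num) |>.1 this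
    rw [h1', h2'] at hneg
    have h3 : (φ r2 * x 0) ^ 2 ≤ 0 := by nlinarith
    have h4 : φ r2 * x 0 = 0 := by
      have := le_antisymm h3 (sq_nonneg _)
      exact pow_eq_zero_iff (n := 2) (by norm_num) |>.1 this
    have h0' : x 0 = 0 := (mul_eq_zero.1 h4).resolve_left hs0
    apply hx
    funext i
    fin_cases i
    · exact h0'
    · exact h1'
    · exact h2'
  · intro α hα
    have hαR : ((α : 𝓞 K) : K) ∈ R := (hI _).1 (NumberField.RingOfIntegers.isIntegral_coe α)
    have hTP : TP ((α : 𝓞 K) : K) := by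
      intro s t hs ht
      obtain ⟨φ, hφ⟩ := hre2 s t hs ht
      rw [← hφ]
      exact hα φ
    have h5 : (2 * ph - 1) ^ 2 = (5 : K) := by
      have := ph_sq
      linear_combination 4 * this
    obtain ⟨a, b, c, habc⟩ := hSQ K r2 (2 * ph - 1) r2_sq h5 ((α : 𝓞 K) : K) hα
    obtain ⟨A, hA, B, hB, C, hC, hABC⟩ := hF _ hαR hTP ⟨a, b, c, habc⟩
    have iA : IsIntegral ℤ A := (hI A).2 hA
    have iB : IsIntegral ℤ B := (hI B).2 hB
    have iC : IsIntegral ℤ C := (hI C).2 hC
    have hx : (r2 * (A + B + C) / 2) ^ 2 = ((α : 𝓞 K) : K) + A * B + B * C + C * A := by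
      have h2 := r2_sq
      field_simp
      linear_combination (A + B + C) ^ 2 * h2 + 2 * hABC
    have ix : IsIntegral ℤ (r2 * (A + B + C) / 2) := by
      refine IsIntegral.of_pow (n := 2) (by norm_num) ?_
      rw [hx]
      exact (((NumberField.RingOfIntegers.isIntegral_coe α).add (iA.mul iB)).add (iB.mul iC)).add
        (iC.mul iA)
    refine ⟨![⟨_, ix⟩, ⟨B, iB⟩, ⟨C, iC⟩], ?_⟩
    apply NumberField.RingOfIntegers.ext
    simp [Fin.sum_univ_three, hR2c]
    have h2 := r2_sq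
    field_simp
    linear_combination ((A + B + C) ^ 2 - 2 * (A + B + C) * (B + C)) * h2 + 2 * hABC

end Pool.Agent.U723.TU.MAIN
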